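import Mathlib
import Pool.Agent.H67.FS.Targets

set_option autoImplicit false
set_option linter.unusedSectionVars false

namespace Pool.Agent.H60.FS

open Pool.Agent.H67.FS

universe u

section

variable {F : Type u} [Field F] {ι : Type} [LinearOrder ι] (e : ι → Fin 4 → F)

/-- the class at a point -/
def k1 (w : ι → Fin 4 → F) : C1 e := fun a => (E1 e a).mkQ (w a)
/-- the class at pairs -/
def k2 (w : Prs ι → Fin 4 → F) : C2 e := fun p => (E2 e p.1.1 p.1.2).mkQ (w p)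
/-- the class at triples -/
def k3 (w : Trs ι → Fin 4 → F) : C3 e := fun t => (E3 e t.1.1 t.1.2.1 t.1.2.2).mkQ (w t)

theorem k1_surj (u : C1 e) : ∃ w, k1 e w = u := by
  choose w hw using fun a => (E1 e a).mkQ_surjective (u a)
  exact ⟨w, funext hw⟩

theorem k2_surj (u : C2 e) : ∃ w, k2 e w = u := by
  choose w hw using fun p : Prs ι => (E2 e p.1.1 p.1.2).mkQ_surjective (u p)
  exact ⟨w, funext hw⟩

theorem k3_surj (u : C3 e) : ∃ w, k3 e w = u := by
  choose w hw using fun t : Trs ι => (E3 e t.1.1 t.1.2.1 t.1.2.2).mkQ_surjective (u t)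
  exact ⟨w, funext hw⟩

theorem r1l_k1 (w : ι → Fin 4 → F) (p : Prs ι) :
    r1l e p (k1 e w) = (E2 e p.1.1 p.1.2).mkQ (w p.1.1) := rfl
theorem r1r_k1 (w : ι → Fin 4 → F) (p : Prs ι) :
    r1r e p (k1 e w) = (E2 e p.1.1 p.1.2).mkQ (w p.1.2) := rfl
theorem r2ab_k2 (w : Prs ι → Fin 4 → F) (t : Trs ι) :
    r2ab e t (k2 e w) = (E3 e t.1.1 t.1.2.1 t.1.2.2).mkQ (w ⟨(t.1.1, t.1.2.1), t.2.1⟩) := rfl
theorem r2ac_k2 (w : Prs ι → Fin 4 → F) (t : Trs ι) :
    r2ac e t (k2 e w) =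
      (E3 e t.1.1 t.1.2.1 t.1.2.2).mkQ (w ⟨(t.1.1, t.1.2.2), t.2.1.trans t.2.2⟩) := rfl
theorem r2bc_k2 (w : Prs ι → Fin 4 → F) (t : Trs ι) :
    r2bc e t (k2 e w) = (E3 e t.1.1 t.1.2.1 t.1.2.2).mkQ (w ⟨(t.1.2.1, t.1.2.2), t.2.2⟩) := rfl

theorem M0_eq (i : ι) (v : Fin 4 → F) : M0 e i v = k1 e (fun a => if i = a then v else 0) := by
  funext a
  simp only [M0, k1, LinearMap.pi_apply]
  split_ifs <;> simp

theorem d0_eq (v : Fin 4 → F) : d0 e v = k1 e (fun _ => v) := rfl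

theorem M1_eq (i : ι) (w : ι → Fin 4 → F) : M1 e i (k1 e w) =
    k2 e (fun p => (if i = p.1.1 then w p.1.2 else 0) - (if i = p.1.2 then w p.1.1 else 0)) := by
  funext p
  simp only [M1, k2, LinearMap.pi_apply, LinearMap.sub_apply]
  split_ifs <;> simp [r1l_k1, r1r_k1]

theorem d1_eq (w : ι → Fin 4 → F) : d1 e (k1 e w) = k2 e (fun p => w p.1.2 - w p.1.1) := by
  funext p
  simp only [d1, k2, LinearMap.pi_apply, LinearMap.sub_apply]
  simp [r1l_k1, r1r_k1]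

theorem M2_eq (i : ι) (w : Prs ι → Fin 4 → F) : M2 e i (k2 e w) =
    k3 e (fun t => (if i = t.1.1 then w ⟨(t.1.2.1, t.1.2.2), t.2.2⟩ else 0) -
      (if i = t.1.2.1 then w ⟨(t.1.1, t.1.2.2), t.2.1.trans t.2.2⟩ else 0) +
      (if i = t.1.2.2 then w ⟨(t.1.1, t.1.2.1), t.2.1⟩ else 0)) := by
  funext t
  simp only [M2, k3, LinearMap.pi_apply, LinearMap.sub_apply, LinearMap.add_apply]
  split_ifs <;> simp [r2ab_k2, r2ac_k2, r2bc_k2]

theorem d2_eq (w : Prs ι → Fin 4 → F) : d2 e (k2 e w) =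
    k3 e (fun t => w ⟨(t.1.2.1, t.1.2.2), t.2.2⟩ - w ⟨(t.1.1, t.1.2.2), t.2.1.trans t.2.2⟩ +
      w ⟨(t.1.1, t.1.2.1), t.2.1⟩) := by
  funext t
  simp only [d2, k3, LinearMap.pi_apply, LinearMap.sub_apply, LinearMap.add_apply]
  simp [r2ab_k2, r2ac_k2, r2bc_k2]

theorem k1_add (w w' : ι → Fin 4 → F) : k1 e w + k1 e w' = k1 e (fun a => w a + w' a) := by
  funext a; simp [k1]
theorem k2_add (w w' : Prs ι → Fin 4 → F) : k2 e w + k2 e w' = k2 e (fun a => w a + w' a) := by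
  funext a; simp [k2]
theorem k3_add (w w' : Trs ι → Fin 4 → F) : k3 e w + k3 e w' = k3 e (fun a => w a + w' a) := by
  funext a; simp [k3]

theorem k2_zero : k2 e (fun _ => 0) = 0 := by funext a; simp [k2]
theorem k3_zero : k3 e (fun _ => 0) = 0 := by funext a; simp [k3]

end

theorem z : T_Z.{u} := by
  intro F _ ι _ e
  refine ⟨?_, ?_, ?_, ?_, ?_, ?_⟩
  · intro i v
    rw [M0_eq, M1_eq, ← k2_zero e]
    congr 1
    funext p
    have h := p.2.ne
    split_ifs with h1 h2 h3 <;> simp_all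
  · intro i j v
    rw [M0_eq, M1_eq, M0_eq, M1_eq, k2_add, ← k2_zero e]
    congr 1
    funext p
    split_ifs <;> simp_all
  · intro i u
    obtain ⟨w, rfl⟩ := k1_surj e u
    rw [M1_eq, M2_eq, ← k3_zero e]
    congr 1
    funext t
    have h1 := t.2.1.ne
    have h2 := t.2.2.ne
    have h3 := (t.2.1.trans t.2.2).ne
    dsimp only
    split_ifs <;> simp_all
  · intro i j u
    obtain ⟨w, rfl⟩ := k1_surj e u
    rw [M1_eq, M2_eq, M1_eq, M2_eq, k3_add, ← k3_zero e]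
    congr 1
    funext t
    have h1 := t.2.1.ne
    have h2 := t.2.2.ne
    have h3 := (t.2.1.trans t.2.2).ne
    dsimp only
    split_ifs <;> first | (exfalso; simp_all; done) | abel
  · intro v
    rw [d0_eq, d1_eq, ← k2_zero e]
    congr 1
    funext p
    simp
  · intro u
    obtain ⟨w, rfl⟩ := k1_surj e u
    rw [d1_eq, d2_eq, ← k3_zero e]
    congr 1
    funext t
    simp

end Pool.Agent.H60.FS
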