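import Mathlib
import Pool.Agent.H67.FS.Targets
import Pool.Agent.H60.FS.Z

set_option autoImplicit false

namespace Pool.Agent.H60.FS

open Pool.Agent.H67.FS

universe u

theorem tf (hG : T_GRAD.{u}) (h1 : T_Y1.{u}) (h2 : T_Y2.{u}) : T_TF.{u} := by
  intro K κ _ _ _ _ ι _ _ e hgp
  constructor
  · refine hG K κ ι ι (Prs ι) (fun a => (Fin 4 → κ) ⧸ E1 e a)
      (fun p => (Fin 4 → κ) ⧸ E2 e p.1.1 p.1.2) (fun a => {a}) (fun p => {p.1.1, p.1.2}) 1
      (d1 e) (fun i => M1 e i) ?_ ?_ ?_ ?_
    · intro a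
      simp
    · intro p
      rw [Finset.card_pair p.2.ne]
    · intro x u
      obtain ⟨w, rfl⟩ := k1_surj e u
      have hx : (fun j => algebraMap K κ (∏ l ∈ ({j} : Finset ι), x l) • k1 e w j) =
          k1 e (fun j => algebraMap K κ (x j) • w j) := by
        funext j
        simp [k1]
      rw [hx, d1_eq]
      simp only [M1_eq]
      funext p
      have hne := p.2.ne
      rw [Finset.prod_pair hne]
      simp only [Finset.sum_apply, Pi.smul_apply, k2, map_mul]
      simp only [← map_smul, ← map_sum]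
      congr 1
      simp only [smul_sub, smul_ite, smul_zero, Finset.sum_sub_distrib, Finset.sum_ite_eq',
        Finset.mem_univ, if_true, smul_smul]
      rw [mul_comm (algebraMap K κ (x p.1.2))]
    · exact (h1 κ ι e hgp).2.2
  · refine hG K κ ι (Prs ι) (Trs ι) (fun p => (Fin 4 → κ) ⧸ E2 e p.1.1 p.1.2)
      (fun t => (Fin 4 → κ) ⧸ E3 e t.1.1 t.1.2.1 t.1.2.2) (fun p => {p.1.1, p.1.2})
      (fun t => {t.1.1, t.1.2.1, t.1.2.2}) 2
      (d2 e) (fun i => M2 e i) ?_ ?_ ?_ ?_
    · intro p
      exact Finset.card_pair p.2.ne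
    · intro t
      exact Finset.card_eq_three.2 ⟨_, _, _, t.2.1.ne, (t.2.1.trans t.2.2).ne, t.2.2.ne, rfl⟩
    · intro x u
      obtain ⟨w, rfl⟩ := k2_surj e u
      have hx : (fun j : Prs ι => algebraMap K κ (∏ l ∈ ({j.1.1, j.1.2} : Finset ι), x l) •
          k2 e w j) = k2 e (fun j => (algebraMap K κ (x j.1.1) * algebraMap K κ (x j.1.2)) • w j) := by
        funext j
        rw [Finset.prod_pair j.2.ne]
        simp [k2]
      rw [hx, d2_eq]
      simp only [M2_eq]
      funext t
      have hne1 := t.2.1.ne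
      have hne2 := (t.2.1.trans t.2.2).ne
      have hne3 := t.2.2.ne
      have hp : ∏ l ∈ ({t.1.1, t.1.2.1, t.1.2.2} : Finset ι), x l =
          x t.1.1 * (x t.1.2.1 * x t.1.2.2) := by
        rw [Finset.prod_insert (by simp [hne1, hne2]), Finset.prod_pair hne3]
      rw [hp]
      simp only [Finset.sum_apply, Pi.smul_apply, k3, map_mul]
      simp only [← map_smul, ← map_sum]
      congr 1
      simp only [smul_sub, smul_add, smul_ite, smul_zero, Finset.sum_sub_distrib,
        Finset.sum_add_distrib, Finset.sum_ite_eq', Finset.mem_univ, if_true, smul_smul]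
      congr 1
      · congr 1
        congr 1
        ring
      · congr 1
        ring
    · exact (h2 κ ι e hgp).2

end Pool.Agent.H60.FS
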