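import Mathlib
import Pool.Agent.H67.FS.Targets

set_option autoImplicit false

namespace Pool.Agent.H60.FS

open Pool.Agent.H67.FS Polynomial

universe u

theorem pow_inj_of_transc {K κ : Type u} [Field K] [Field κ] [Algebra K κ] {x : κ}
    (hx : Transcendental K x) {a b : ℕ} (h : x ^ a = x ^ b) : a = b := by
  have h2 : (X ^ a : K[X]) = X ^ b := transcendental_iff_injective.1 hx (by simpa using h)
  have h3 := congrArg natDegree h2
  simpa using h3

theorem nodup_of {K κ : Type u} [Field K] [Field κ] [Algebra K κ] {x y : κ} {n : ℕ}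
    (hn : n = 3 ∨ n = 4) (hx : Transcendental K x) (hxy : x ^ n + y ^ n = 1) :
    [0, 1, x, x ^ 2, x ^ n, y, y ^ 2, y ^ n].Nodup := by
  have hn0 : n ≠ 0 := by rcases hn with h | h <;> omega
  have hn1 : n ≠ 1 := by rcases hn with h | h <;> omega
  have hn2 : n ≠ 2 := by rcases hn with h | h <;> omega
  have hy : Transcendental K y := by
    intro hy
    apply hx
    have h1 : IsAlgebraic K (x ^ n) := by
      have : x ^ n = 1 - y ^ n := by rw [← hxy]; ring
      rw [this]
      exact (isAlgebraic_one).sub (hy.pow n)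
    exact IsAlgebraic.of_pow (Nat.pos_of_ne_zero hn0) h1
  have z0 : ∀ {t : κ}, Transcendental K t → ∀ a, t ^ a ≠ 0 := by
    intro t ht a h
    have : t = 0 := by
      by_contra h0
      exact pow_ne_zero a h0 h
    exact ht (this ▸ isAlgebraic_zero)
  have o1 : ∀ {t : κ}, Transcendental K t → ∀ a, a ≠ 0 → t ^ a ≠ 1 := by
    intro t ht a ha h
    exact ha (pow_inj_of_transc ht (a := a) (b := 0) (by simpa using h))
  have key : ∀ a b : ℕ, a ≠ 0 → x ^ a ≠ y ^ b := by
    intro a b ha h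
    have h1 : x ^ (a * n) = (1 - x ^ n) ^ b := by
      rw [pow_mul, h, ← pow_mul, mul_comm, pow_mul]
      congr 1
      rw [← hxy]; ring
    have h2 : (X ^ (a * n) : K[X]) = (1 - X ^ n) ^ b :=
      transcendental_iff_injective.1 hx (by simpa using h1)
    have h3 := congrArg (eval 0) h2
    simp [ha, hn0] at h3
  have e1 : ∀ {t : κ}, Transcendental K t → ∀ a b, a ≠ b → t ^ a ≠ t ^ b := by
    intro t ht a b hab h
    exact hab (pow_inj_of_transc ht h)
  have x1 : x = x ^ 1 := (pow_one x).symm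
  have y1 : y = y ^ 1 := (pow_one y).symm
  have hl : [0, 1, x, x ^ 2, x ^ n, y, y ^ 2, y ^ n] =
      [0, 1, x ^ 1, x ^ 2, x ^ n, y ^ 1, y ^ 2, y ^ n] := by simp
  rw [hl]
  simp only [List.nodup_cons, List.mem_cons, List.not_mem_nil, not_or, or_false, not_false_iff,
    List.nodup_nil, and_true]
  refine ⟨⟨zero_ne_one, (z0 hx 1).symm, (z0 hx 2).symm, (z0 hx n).symm, (z0 hy 1).symm,
    (z0 hy 2).symm, (z0 hy n).symm⟩, ⟨(o1 hx 1 (by omega)).symm, (o1 hx 2 (by omega)).symm,
    (o1 hx n hn0).symm, (o1 hy 1 (by omega)).symm, (o1 hy 2 (by omega)).symm,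
    (o1 hy n hn0).symm⟩, ⟨e1 hx _ _ (by omega), e1 hx _ _ (Ne.symm hn1), key _ _ (by omega),
    key _ _ (by omega), key _ _ (by omega)⟩, ⟨e1 hx _ _ (Ne.symm hn2), key _ _ (by omega),
    key _ _ (by omega), key _ _ (by omega)⟩, ⟨key _ _ hn0, key _ _ hn0, key _ _ hn0⟩,
    ⟨e1 hy _ _ (by omega), e1 hy _ _ (Ne.symm hn1)⟩, e1 hy _ _ (Ne.symm hn2)⟩

theorem xy : T_XY.{u} := by
  intro K _ _
  have hn : ∃ n : ℕ, (n = 3 ∨ n = 4) ∧ (n : K) ≠ 0 := by
    by_cases h3 : ((3 : ℕ) : K) = 0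
    · refine ⟨4, Or.inr rfl, ?_⟩
      intro h4
      have : (1 : K) = 0 := by
        have h : (1 : K) = ((4 : ℕ) : K) - ((3 : ℕ) : K) := by push_cast; ring
        rw [h, h3, h4, sub_zero]
      exact one_ne_zero this
    · exact ⟨3, Or.inl rfl, h3⟩
  obtain ⟨n, hn, hnK⟩ := hn
  have hn0 : n ≠ 0 := by rcases hn with h | h <;> omega
  let Ω := AlgebraicClosure (RatFunc K)
  let x₀ : Ω := algebraMap (RatFunc K) Ω RatFunc.X
  have hx₀ : Transcendental K x₀ := by
    have h1 : Transcendental K (RatFunc.X : RatFunc K) := by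
      rw [transcendental_iff_injective]
      have : (aeval (RatFunc.X : RatFunc K) : K[X] →ₐ[K] RatFunc K) =
          IsScalarTower.toAlgHom K K[X] (RatFunc K) := by
        ext
        simp
      rw [this]
      exact RatFunc.algebraMap_injective K
    exact (transcendental_algebraMap_iff (FaithfulSMul.algebraMap_injective (RatFunc K) Ω)).2 h1
  obtain ⟨y₀, hy₀⟩ := IsAlgClosed.exists_pow_nat_eq (1 - x₀ ^ n) (Nat.pos_of_ne_zero hn0)
  let κ := IntermediateField.adjoin K {x₀, y₀}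
  have hxm : x₀ ∈ κ := IntermediateField.subset_adjoin K _ (by simp)
  have hym : y₀ ∈ κ := IntermediateField.subset_adjoin K _ (by simp)
  have hx : Transcendental K (⟨x₀, hxm⟩ : κ) := by
    have : Transcendental K (algebraMap κ Ω ⟨x₀, hxm⟩) := hx₀
    exact (transcendental_algebraMap_iff (FaithfulSMul.algebraMap_injective κ Ω)).1 this
  have hxy : (⟨x₀, hxm⟩ : κ) ^ n + (⟨y₀, hym⟩ : κ) ^ n = 1 := by
    apply Subtype.ext
    push_cast
    rw [hy₀]
    ring
  refine ⟨n, hn, hnK, κ, inferInstance, inferInstance, ⟨x₀, hxm⟩, ⟨y₀, hym⟩, hxy, ?_, ?_,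
    nodup_of hn hx hxy⟩
  · rintro ⟨k, hk⟩
    exact hx (hk ▸ isAlgebraic_algebraMap k)
  · apply IntermediateField.lift_injective κ
    rw [IntermediateField.lift_adjoin, IntermediateField.lift_top]
    simp [κ, Set.image_pair]

end Pool.Agent.H60.FS
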